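import Mathlib
import Pool.Agent.H.MP_405a2c_gt.A

set_option autoImplicit false

namespace Pool.Agent.Results.MP_405a2c_gt.CHNo

open Cardinal Pool.Agent.H.MP_405a2c_gt

theorem result (hc : (𝔠 : Cardinal.{0}) = ℵ₁) :
    ∃ (G : Type) (_ : Group G) (J : Set (Set G)), GI J ∧ Normal J ∧ ¬ Lin J :=
  ⟨_, inferInstance, H.MP_405a2c_gt.main hc⟩

end Pool.Agent.Results.MP_405a2c_gt.CHNo
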